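import Pool.Agent.helper61.OSR.Main

/-!
# Online matching with stochastic rewards: an online algorithm beats 1/2

There is a randomised online algorithm (two-level perturbed greedy) whose competitive ratio for
online bipartite matching with stochastic rewards and completely arbitrary edge probabilities is at
least `503/1000 > 1/2`.  The bound holds against the optimal non-anticipating offline policy
`OPT(I)`, and even against the linear programming relaxation.

Sketch of the proof.  Every offline vertex `v` is independently favoured (weight `f(v) = 51/100`)
with probability `1/4` and normal (`f(v) = 49/100`) otherwise; every arrival `u` is matched to the
available neighbour maximising `p(u,v) f(v)`.  The reward of a match `(u,v)` is split into the part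
`f(v)` for `u` and the part `1 - f(v)` for `v`.  For a fixed offline vertex `v` and fixed levels of
all the others, the run with `v` is coupled with the run without `v` by one common coin for every
arrival.  The available set with `v` always contains the one without `v`, and the probability that
`v` is available while the two sets differ by more than `v` is at most `51/49 - 1`.  Comparing the
two levels of `v`, one of the following gives the needed gain: `v` is matched with a substantially
larger probability than needed, or the partners of `v` get more in the run without `v`.
-/

namespace Pool.Agent.Results.MP_3a6b37_lc.BeatsOneHalf

open Pool.Agent.helper61.OSR

/-- Some randomised online algorithm has competitive ratio greater than `1/2` for online bipartite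
matching with stochastic rewards and unrestricted edge probabilities: its expected reward is at
least `503/1000` of `OPT(I)`, and even of the value of every solution of the linear programming
relaxation, on every instance `I`. -/
theorem result : ∃ A : OnlineAlgorithm,
    1 / 2 < A.competitiveRatio ∧
    (∀ (m : ℕ) (I : List (Arrival m)), 503 / 1000 * OPT I ≤ A.expectedReward I) ∧
    (∀ (m : ℕ) (I : List (Arrival m)) (x : Fin I.length → Fin m → ℝ), LPFeasible I x →
      503 / 1000 * LPvalue I x ≤ A.expectedReward I) := by
  refine ⟨alg, ?_, fun m I => alg_competitive_OPT I, fun m I x hx =>
    alg_competitive_LPFeasible I x hx⟩
  have h := alg_ratio
  linarith

end Pool.Agent.Results.MP_3a6b37_lc.BeatsOneHalf
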